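import Mathlib
import Pool.Agent.H96cond.Refl

open Filter Topology

namespace Pool.Agent.Results.MP_65ccae_an.Reflexive

section

variable (𝕜 : Type) [RCLike 𝕜] {X : Type} [NormedAddCommGroup X] [NormedSpace 𝕜 X]

/-- The series with terms `a n • x n` converges (in the given order) to `v`. -/
def ExpandsTo (x : ℕ → X) (a : ℕ → 𝕜) (v : X) : Prop :=
  Tendsto (fun K : ℕ => ∑ n ∈ Finset.range K, a n • x n) atTop (𝓝 v)

/-- Every vector has a unique expansion. -/
def IsSchauderBasis (x : ℕ → X) : Prop := ∀ v, ∃! a : ℕ → 𝕜, ExpandsTo 𝕜 x a v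

/-- Some expansion does not converge unconditionally. -/
def IsConditional (x : ℕ → X) : Prop :=
  ∃ (v : X) (a : ℕ → 𝕜), ExpandsTo 𝕜 x a v ∧ ¬ Summable (fun n => a n • x n)

/-- The coefficient sequence `b` is a greedy rearrangement of the coefficient sequence `a`
(`‖a k‖` is less than the supremum exactly when it is less than some `‖a n‖`). -/
def IsGreedyRearrangement (a b : ℕ → 𝕜) : Prop :=
  ∃ π : Equiv.Perm ℕ, (∀ n, ‖b (π n)‖ = ‖a n‖) ∧
    ∀ k, a k ≠ 0 → (∃ n, ‖a k‖ < ‖a n‖) → π k = k ∧ b k = a k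

/-- Property (A). -/
def HasPropertyA (x : ℕ → X) : Prop :=
  ∀ (u v : X) (a b : ℕ → 𝕜), ExpandsTo 𝕜 x a u → ExpandsTo 𝕜 x b v →
    IsGreedyRearrangement 𝕜 a b → ‖u‖ = ‖v‖

end

/-- There is a reflexive Banach space (real or complex) with a conditional Schauder basis which has
Property (A); it is moreover isomorphic to the Hilbert sequence space. -/
theorem result (𝕜 : Type) [RCLike 𝕜] :
    ∃ (X : Type) (_ : NormedAddCommGroup X) (_ : NormedSpace 𝕜 X),
      CompleteSpace X ∧ Function.Surjective (NormedSpace.inclusionInDoubleDual 𝕜 X) ∧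
      Nonempty (X ≃L[𝕜] lp (fun _ : ℕ => 𝕜) 2) ∧
      ∃ x : ℕ → X, IsSchauderBasis 𝕜 x ∧ IsConditional 𝕜 x ∧ HasPropertyA 𝕜 x := by
  obtain ⟨S, hbad⟩ := H96cond.exists_sys 𝕜
  set L := H96cond.toNew S with hL
  have hexp : ∀ (a : ℕ → 𝕜) (v : H96cond.NewSp S), ExpandsTo 𝕜 (fun n => L (S.e n)) a v ↔
      ∀ m, a m = S.a m (L.symm v) := by
    intro a v
    have hsum : ∀ K, ∑ n ∈ Finset.range K, a n • L (S.e n) =
        L (∑ n ∈ Finset.range K, a n • S.e n) := by
      intro K
      rw [map_sum]
      exact Finset.sum_congr rfl fun n _ => (map_smul L _ _).symm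
    have key : ExpandsTo 𝕜 (fun n => L (S.e n)) a v ↔
        Tendsto (fun K : ℕ => ∑ n ∈ Finset.range K, a n • S.e n) atTop (𝓝 (L.symm v)) := by
      unfold ExpandsTo
      simp only [hsum]
      constructor
      · intro h
        have h1 := (L.symm.continuous.tendsto v).comp h
        refine h1.congr fun K => ?_
        exact L.symm_apply_apply _
      · intro h
        have h1 := (L.continuous.tendsto _).comp h
        rw [L.apply_symm_apply] at h1
        exact h1
    rw [key]
    constructor
    · intro h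
      exact H96cond.expands_unique S a _ h
    · intro h
      obtain rfl : a = fun m => S.a m (L.symm v) := funext h
      exact S.conv _
  refine ⟨H96cond.NewSp S, inferInstance, inferInstance, H96cond.newSp_complete S,
    H96cond.reflexive_transport L (H96cond.hilbert_reflexive 𝕜 _), ⟨L.symm⟩,
    fun n => L (S.e n), ?_, ?_, ?_⟩
  · intro v
    refine ⟨fun m => S.a m (L.symm v), (hexp _ _).2 fun _ => rfl, ?_⟩
    intro a ha
    exact funext ((hexp _ _).1 ha)
  · obtain ⟨v, hv⟩ := H96cond.bad_not_summable S hbad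
    refine ⟨L v, fun m => S.a m v, (hexp _ _).2 fun m => ?_, ?_⟩
    · rw [L.symm_apply_apply]
    · intro h
      apply hv
      have h1 : Summable (fun n => L.symm (S.a n v • L (S.e n))) :=
        h.map L.symm.toLinearEquiv L.symm.continuous
      refine h1.congr fun n => ?_
      rw [map_smul, L.symm_apply_apply]
  · rintro u v a b ha hb ⟨π, h1, h2⟩
    rw [hexp] at ha hb
    have e : H96cond.NN S (L.symm u) = H96cond.NN S (L.symm v) := by
      apply H96cond.NN_eq_of_rearr S _ _ π
      · intro n
        rw [← ha, ← hb]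
        exact h1 n
      · intro k hk hlt
        rw [← ha, ← hb]
        rw [← ha] at hk
        obtain ⟨n, hn⟩ := hlt
        rw [← ha, ← ha] at hn
        exact h2 k hk ⟨n, hn⟩
    rw [← H96cond.norm_toNew, ← H96cond.norm_toNew, ← hL, L.apply_symm_apply,
      L.apply_symm_apply] at e
    exact e

end Pool.Agent.Results.MP_65ccae_an.Reflexive
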